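import Pool.Agent.J4H64.MP.Def

set_option autoImplicit false

/-! Project MP (MP_b53add_lc), piece QCR: the worst case (after `J4H64.MO.t_COR2`). -/

namespace Pool.Agent.J4H46.MP

open Finset Filter Pool.Agent.J4H64.MC Pool.Agent.J4H64.MN Pool.Agent.J4H64.MO Pool.Agent.J4H64.MP

theorem t_QCR : S_QCR := by
  classical
  intro hF hC k hk
  obtain ⟨c, hc, h⟩ := hF k hk (1 / 4) (by norm_num)
  refine ⟨c, hc, fun η hη => ?_⟩
  have hη' : max η 0 < (k : ℝ) := by
    apply max_lt hη
    have : (3 : ℝ) ≤ k := by exact_mod_cast hk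
    linarith
  filter_upwards [h (max η 0) hη', eventually_ge_atTop 1] with n hn hn1
  have hn1' : (1 : ℝ) ≤ n := by exact_mod_cast hn1
  have hmono : (n : ℝ) ^ η ≤ (n : ℝ) ^ (max η 0) := Real.rpow_le_rpow_of_exponent_le hn1' (le_max_left _ _)
  have hone : (1 : ℝ) ≤ (n : ℝ) ^ (max η 0) := Real.one_le_rpow hn1' (le_max_right _ _)
  refine ⟨fun C hCS => ?_, fun F hFS hb => ?_⟩
  · have key : ∀ B : ℕ, 1 ≤ B → (B : ℝ) ≤ (n : ℝ) ^ η → C.NotCost B →
        (2 : ℝ) ^ (c * ((n : ℝ) ^ k / B) ^ (1 / ((k : ℝ) + 1)) / Real.log n ^ 3) ≤ C.m := by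
      intro B hB hBn hcost
      by_contra hlt
      push Not at hlt
      obtain ⟨Λ, hΛ, hΛ', D, hD, -⟩ := hn B hB (hBn.trans hmono)
      have h1 := hD C hcost hlt
      have h2 : {l | C.Acc (D l) ↔ Sat (D l)} = Set.univ := by
        ext l
        simp [hCS (D l)]
      rw [h2, Set.ncard_univ, Nat.card_eq_fintype_card] at h1
      have h3 : (0 : ℝ) < Fintype.card Λ := by
        exact_mod_cast Fintype.card_pos
      linarith
    obtain ⟨h1, h2⟩ := hC (Clause n k) C
    constructor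
    · intro hb
      have := key (2 ^ C.nots) Nat.one_le_two_pow (by push_cast; exact hb) h1
      push_cast at this
      exact this
    · intro d hd hb
      have := key ((C.nots + 1) ^ d) (Nat.one_le_pow _ _ (by omega)) (by push_cast; exact hb)
        (h2 d hd)
      push_cast at this
      exact this
  · by_contra hlt
    push Not at hlt
    obtain ⟨B, hB⟩ : ∃ B : ℕ, B = max F.nots 1 := ⟨_, rfl⟩
    have hB1 : 1 ≤ B := by rw [hB]; exact le_max_right _ _
    have hB2 : F.nots ≤ B := by rw [hB]; exact le_max_left _ _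
    have hB3 : B ≤ F.nots + 1 := by rw [hB]; omega
    have hBn : (B : ℝ) ≤ (n : ℝ) ^ (max η 0) := by
      rw [hB, Nat.cast_max, Nat.cast_one]
      exact max_le (hb.trans hmono) hone
    obtain ⟨Λ, hΛ, hΛ', D, -, hD⟩ := hn B hB1 hBn
    have hle : (2 : ℝ) ^ (c * ((n : ℝ) ^ k / (F.nots + 1)) ^ (1 / ((k : ℝ) + 1)) / Real.log n ^ 3) ≤
        (2 : ℝ) ^ (c * ((n : ℝ) ^ k / B) ^ (1 / ((k : ℝ) + 1)) / Real.log n ^ 3) := by
      apply Real.rpow_le_rpow_of_exponent_le (by norm_num)
      have hlog : 0 ≤ Real.log n ^ 3 := pow_nonneg (Real.log_nonneg hn1') 3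
      apply div_le_div_of_nonneg_right _ hlog
      apply mul_le_mul_of_nonneg_left _ hc.le
      apply Real.rpow_le_rpow (by positivity) _ (by positivity)
      have hB0 : (0 : ℝ) < B := by exact_mod_cast hB1
      have hB3' : (B : ℝ) ≤ F.nots + 1 := by exact_mod_cast hB3
      exact div_le_div_of_nonneg_left (by positivity) hB0 hB3'
    have h1 := hD F hB2 (lt_of_lt_of_le hlt hle)
    have h2 : {l | F.eval (D l) = true ↔ Sat (D l)} = Set.univ := by
      ext l
      simp [hFS (D l)]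
    rw [h2, Set.ncard_univ, Nat.card_eq_fintype_card] at h1
    have h3 : (0 : ℝ) < Fintype.card Λ := by
      exact_mod_cast Fintype.card_pos
    linarith

end Pool.Agent.J4H46.MP
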